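import Pool.Agent.Helper11.LE.Goals1
import Pool.Agent.Helper12.RP.ROO
import Pool.Agent.Helper42.RS.RAM
import Pool.Agent.Helper20.RP.TAM
import Pool.Agent.Helper79.RP.HIL

/-! Project LE: L_HIL. -/

namespace Pool.Agent.Helper13.LE

open NumberField Polynomial Module IsDedekindDomain Filter Topology
  Pool.Agent.Helper51.SigLeo Pool.Agent.Helper51.RP Pool.Agent.Helper79.RP
  Pool.Agent.Helper11.LE

theorem l_hil : Pool.Agent.Helper11.LE.L_HIL := by
  intro p hpf k _ _ _ _ hι L K H K₁ H₁ _ _ _ _ _ _ _ _ _ _ _ _ γ γ₁ ε a s hd T u _hu1 hu2 hu3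
    y x hy hx
  have h1 : S_ROO := Pool.Agent.Helper12.RP.s_roo
  have h2 : S_RAM := Pool.Agent.Helper42.RS.s_ram_p
  have h3 : S_TAM := Pool.Agent.Helper20.RP.s_tam
  have hp := hpf.out
  have hch : CharZero k := charZero_of_padic p
  have hprod : ∀ z : H, ∏ j ∈ Finset.range p, (γ₁ ^ j) (algebraMap H H₁ z) =
      algebraMap H H₁ (∏ j ∈ Finset.range p, (γ ^ j) z) := by
    intro z
    rw [map_prod]
    exact Finset.prod_congr rfl fun j _ => map_pow_ext hd.ext j z
  refine ⟨?_, ?_⟩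
  · intro W
    have hy1 : algebraMap H H₁ (y : H) ≠ 0 := (_root_.map_ne_zero _).2 y.ne_zero
    set y₁ : H₁ˣ := Units.mk0 (algebraMap H H₁ (y : H)) hy1 with hy₁
    have hx1 : algebraMap K₁ H₁ (algebraMap K K₁ (x : K)) =
        ∏ j ∈ Finset.range p, (γ₁ ^ j) (y₁ : H₁) := by
      rw [hy₁, Units.val_mk0, hprod, ← hx, hd.compat]
    refine ⟨fun h => ?_, fun h => ?_⟩
    · refine h2 p K₁ H₁ ε a s γ₁ hd.prim hd.ne hd.adm hd.degH₁ hd.pow hd.γs y₁
        (Units.map (RingOfIntegers.mapRingHom (algebraMap H H₁)) (u 0))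
        (algebraMap K K₁ (x : K)) ?_ hx1 W h
      rw [hy₁, Units.val_mk0, hd.ext, hy, map_mul]
      rfl
    · exact h3 p K₁ H₁ ε a s γ₁ hd.prim (RingOfIntegers.coe_ne_zero_iff.2 hd.ne) hd.degH₁ hd.pow
        hd.γs y₁ (algebraMap K K₁ (x : K)) hx1 W h
  · intro N
    obtain ⟨b, hb1, hb2⟩ := hu2 N
    have hb0 : (b : H) ≠ 0 := RingOfIntegers.coe_ne_zero_iff.2 b.ne_zero
    have hy' : γ ((y : H) * b) = (u N : H) * ((y : H) * b) := by
      rw [map_mul, hy]
      calc (u 0 : H) * (y : H) * γ (b : H) = (y : H) * ((u 0 : H) * γ (b : H)) := by ring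
        _ = (y : H) * ((u N : H) * b) := by rw [hb2]
        _ = _ := by ring
    have hyb : (y : H) * (b : H) ≠ 0 := mul_ne_zero y.ne_zero hb0
    have hx' : algebraMap K H (x : K) = ∏ j ∈ Finset.range p, (γ ^ j) ((y : H) * (b : H)) := by
      have : ∀ j ∈ Finset.range p, (γ ^ j) ((y : H) * (b : H)) =
          (γ ^ j) (y : H) * (γ ^ j) (b : H) := fun j _ => map_mul _ _ _
      rw [Finset.prod_congr rfl this, Finset.prod_mul_distrib, hb1, mul_one, hx]
    have hyb1 : algebraMap H H₁ ((y : H) * (b : H)) ≠ 0 := (_root_.map_ne_zero _).2 hyb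
    obtain ⟨c, hc⟩ := stepA h1 hι L K₁ H₁ γ₁ ε a s hd.prim hd.ne hd.adm hd.degH₁ hd.pow hd.γs
      (above T : Set (K₁ →+* k)) N (Units.mk0 _ hyb1)
      (Units.map (algebraMap K K₁ : K →* K₁) x) (by
        rw [Units.val_mk0, hprod, ← hx', ← hd.compat]
        rfl)
      (fun j => Units.map ((algebraMap H H₁).comp (algebraMap (𝓞 H) H) : 𝓞 H →* H₁) (VV γ (u N) j))
      (by
        intro j
        rw [Units.val_mk0, map_pow_ext hd.ext, VV_coe γ (u N) hy' j, map_mul]
        rfl)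
      (by
        intro τ₀ hτ₀ j
        set τ : H →+* k := τ₀.comp (algebraMap H H₁) with hτ
        have hmem : τ ∈ (above T : Set (H →+* k)) := by
          have e1 : τ.comp (algebraMap K H) =
              (τ₀.comp (algebraMap K₁ H₁)).comp (algebraMap K K₁) := by
            ext z
            change τ₀ (algebraMap H H₁ (algebraMap K H z)) =
              τ₀ (algebraMap K₁ H₁ (algebraMap K K₁ z))
            rw [hd.compat]
          change τ.comp (algebraMap K H) ∈ T
          rw [e1]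
          exact hτ₀
        have e2 : Units.map (τ₀ : H₁ →* k)
            (Units.map ((algebraMap H H₁).comp (algebraMap (𝓞 H) H) : 𝓞 H →* H₁) (VV γ (u N) j)) =
            ∏ l ∈ Finset.range j,
              Units.map (τ.comp (algebraMap (𝓞 H) H) : 𝓞 H →* k) (UU γ (u N) l) := by
          rw [← map_prod]
          rfl
        rw [e2]
        refine Sm.prod _ _ fun l _ => ⟨norm_unit (p := p) τ (UU γ (u N) l), ?_⟩
        exact hu3 N l τ hmem)
    exact stepB hι L K K₁ hd.gal hd.cop T N x c hc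

end Pool.Agent.Helper13.LE
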